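import Pool.Agent.helper91.SI.Spec4

set_option autoImplicit false

namespace Pool.Agent.helper91.SI

open Pool.Agent.helper20.IG (IsIndepDom IsISet iGraph)

theorem INV_dist : ∀ a b : ZMod 6,
    b = a ∨ b = a + 1 ∨ b = a + 2 ∨ b = a + 3 ∨ a = b + 2 ∨ a = b + 1 := by
  decide

theorem INV (hB6L : B6L_stmt) (hC6Y : C6Y_stmt) (hD6C : D6C_stmt) (hI2W : I2W_stmt) :
    INV_stmt := by
  intro V _ G S s v hT h4 hi4 hW t
  have hI2 := hI2W V G S s v hT hi4 hW
  obtain ⟨hI, hinj, hS⟩ := hW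
  obtain ⟨τ, hτ⟩ := hB6L V S s v (fun t => (hS t).1) (fun t => (hS t).2.1)
    (fun t => (hS t).2.2.2)
  have hadj : ∀ t, G.Adj (s t) (s (τ t)) := by
    intro t
    rw [← hτ t]
    exact (hS t).2.2.1
  rcases hC6Y V G s τ hT h4 hadj with ⟨z, κ, hz, hzκ⟩ | h
  · exfalso
    apply hD6C V G S z κ hT h4 (fun t => (hI t).1) hz
    intro t
    obtain ⟨e1, e2⟩ := hzκ t
    obtain ⟨p1, p2, p3, p4⟩ := hS t
    have hv : v t = z (κ t + 1) := (hτ t).trans e2
    rw [← e1, ← hv]
    exact ⟨p1, p2, p4⟩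
  · obtain ⟨t', h1, h2⟩ := h t
    rw [← hτ t] at h1
    rw [← hτ t'] at h2
    rcases INV_dist t t' with e | e | e | e | e | e
    · exfalso
      rw [e] at h1
      have hl := (hS t).2.2.1
      rw [← h1] at hl
      exact G.loopless.irrefl _ hl
    · exfalso
      apply hI2.1 t
      rw [← e]
      exact h1
    · exfalso
      apply hI2.2 t
      rw [← e]
      exact ⟨h1, h2⟩
    · rw [← e]
      exact ⟨h1, h2⟩
    · exfalso
      apply hI2.2 t'
      rw [← e]
      exact ⟨h2.symm, h1.symm⟩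
    · exfalso
      apply hI2.1 t'
      rw [← e]
      exact h2.symm

end Pool.Agent.helper91.SI
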