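import Pool.Agent.helper91.SI.Spec3

set_option autoImplicit false

namespace Pool.Agent.helper91.SI

open Pool.Agent.helper20.IG (IsIndepDom IsISet iGraph)

theorem NM1_adj {V : Type} [DecidableEq V] (G : SimpleGraph V) (X Y : Finset V)
    (hX : IsISet G X) (hY : IsISet G Y) (hne : X ≠ Y) (u w : V) (hu : u ∈ X) (huw : G.Adj u w)
    (hYX : Y = insert w (X.erase u)) :
    (iGraph G).Adj ⟨X, hX⟩ ⟨Y, hY⟩ := by
  refine ⟨?_, u, hu, w, ?_, huw, hYX⟩
  · intro h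
    exact hne (congrArg Subtype.val h)
  · show w ∈ Y
    rw [hYX]
    exact Finset.mem_insert_self _ _

theorem NM1_dist : ∀ a b : ZMod 7, a ≠ b →
    b = a + 1 ∨ b = a + 2 ∨ b = a + 3 ∨ a = b + 3 ∨ a = b + 2 ∨ a = b + 1 := by
  decide

theorem NM1_ne : ∀ a : ZMod 7, a ≠ a + 1 ∧ a + 1 ≠ a + 1 + 1 ∧ a + 1 + 1 ≠ a + 1 + 1 + 1 ∧
    a ≠ a + 1 + 1 + 1 ∧ a ≠ a + 1 + 1 ∧ a + 1 ≠ a + 1 + 1 + 1 := by
  decide

theorem NM1_aux (hNB1 : NB1_stmt) {V : Type} [DecidableEq V] (G : SimpleGraph V)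
    (S : ZMod 7 → Finset V) (s v : ZMod 7 → V) (hT : NoTri G) (hC4 : NoC4 (iGraph G))
    (hW : W7 G S s v) (a b : ZMod 7) (hb : b = a + 2) (h1 : s b = v a) (h2 : v b = s a) :
    False := by
  have hnb := hNB1 V G S s v hT hW a
  obtain ⟨hI, hinj, hS⟩ := hW
  obtain ⟨n1, n2, n3, n4, n5, n6⟩ := NM1_ne a
  have hb' : b = a + 1 + 1 := by
    rw [hb, add_assoc]
    rfl
  rw [hb'] at h1 h2
  obtain ⟨p1, p2, p3, p4⟩ := hS a
  obtain ⟨q1, q2, q3, q4⟩ := hS (a + 1)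
  obtain ⟨r1, r2, r3, r4⟩ := hS (a + 1 + 1)
  rw [h1] at r1 r3 r4
  rw [h2] at r2 r3 r4
  have hyr : v (a + 1) ≠ s a := by
    intro h
    apply r2
    rw [q4, ← h]
    exact Finset.mem_insert_self _ _
  have hyr' : v (a + 1) ≠ v a := by
    intro h
    apply q2
    rw [h, p4]
    exact Finset.mem_insert_self _ _
  have hxS : s (a + 1) ∈ S a ∧ s (a + 1) ≠ s a := by
    rw [p4, Finset.mem_insert, Finset.mem_erase] at q1
    rcases q1 with h | h
    · exact absurd h hnb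
    · exact ⟨h.2, h.1⟩
  have hyS : v (a + 1) ∉ S a := by
    intro h
    apply q2
    rw [p4, Finset.mem_insert, Finset.mem_erase]
    exact Or.inr ⟨hyr, h⟩
  have hrr : v a ≠ s a := by
    intro h
    apply p2
    rw [h]
    exact p1
  have hS3 : S (a + 1 + 1 + 1) = insert (v (a + 1)) ((S a).erase (s (a + 1))) := by
    rw [r4, q4, p4]
    ext z
    simp only [Finset.mem_insert, Finset.mem_erase]
    constructor
    · rintro (h | ⟨hz1, h | ⟨hz2, h | ⟨hz3, hz4⟩⟩⟩)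
      · right
        rw [h]
        exact ⟨hxS.2.symm, p1⟩
      · exact Or.inl h
      · exact absurd h hz1
      · exact Or.inr ⟨hz2, hz4⟩
    · rintro (h | ⟨hz1, hz2⟩)
      · right
        rw [h]
        exact ⟨hyr', Or.inl rfl⟩
      · by_cases hz : z = s a
        · exact Or.inl hz
        · right
          refine ⟨?_, Or.inr ⟨hz1, Or.inr ⟨hz, hz2⟩⟩⟩
          intro h
          apply p2
          rw [← h]
          exact hz2
  have A1 := NM1_adj G (S a) (S (a + 1)) (hI _) (hI _) (fun h => n1 (hinj h)) (s a) (v a) p1 p3 p4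
  have A2 := NM1_adj G (S (a + 1)) (S (a + 1 + 1)) (hI _) (hI _) (fun h => n2 (hinj h))
    (s (a + 1)) (v (a + 1)) q1 q3 q4
  have A3 := NM1_adj G (S (a + 1 + 1)) (S (a + 1 + 1 + 1)) (hI _) (hI _) (fun h => n3 (hinj h))
    (v a) (s a) r1 r3 r4
  have A4 := NM1_adj G (S a) (S (a + 1 + 1 + 1)) (hI _) (hI _) (fun h => n4 (hinj h))
    (s (a + 1)) (v (a + 1)) hxS.1 q3 hS3
  refine hC4 _ _ _ _ A1 A2 A3 A4.symm ?_ ?_
  · intro h
    exact n5 (hinj (congrArg Subtype.val h))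
  · intro h
    exact n6 (hinj (congrArg Subtype.val h))

theorem NM1 (hIAD : IAD_stmt) (hNB1 : NB1_stmt) : NM1_stmt := by
  intro V _ G S s v q r r' a b ρ hT hC4 hM
  obtain ⟨hW, -, -, -, hab, -, -, e1, e2, e3, e4⟩ := hM
  rcases NM1_dist a b hab with h | h | h | h | h | h
  · exfalso
    apply hNB1 V G S s v hT hW a
    rw [← h, e3, e2]
  · exfalso
    exact NM1_aux hNB1 G S s v hT hC4 hW a b h (by rw [e3, e2]) (by rw [e4, e1])
  · exact Or.inl h
  · exact Or.inr h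
  · exfalso
    exact NM1_aux hNB1 G S s v hT hC4 hW b a h (by rw [e1, e4]) (by rw [e2, e3])
  · exfalso
    apply hNB1 V G S s v hT hW b
    rw [← h, e1, e4]

end Pool.Agent.helper91.SI
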