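import Pool.Agent.helper91.SI.Spec2

set_option autoImplicit false

namespace Pool.Agent.helper91.SI

open Pool.Agent.helper20.IG (IsIndepDom IsISet iGraph)

theorem PRM_sub (τ : Equiv.Perm (ZMod 7)) (t : ZMod 7) (i j : ℕ) (hij : i < j)
    (h : (τ ^ i) t = (τ ^ j) t) : (τ ^ (j - i)) t = t := by
  have h1 : (τ ^ j) t = (τ ^ i) ((τ ^ (j - i)) t) := by
    rw [← Equiv.Perm.mul_apply, ← pow_add]
    congr 2
    omega
  rw [h1] at h
  exact ((τ ^ i).injective h).symm

theorem PRM_pig (τ : Equiv.Perm (ZMod 7)) (t : ZMod 7) :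
    ∃ d : ℕ, 1 ≤ d ∧ d ≤ 7 ∧ (τ ^ d) t = t := by
  obtain ⟨i, j, hij, h⟩ := Fintype.exists_ne_map_eq_of_card_lt
    (fun k : Fin 8 => (τ ^ (k : ℕ)) t) (by
      rw [ZMod.card, Fintype.card_fin]
      norm_num)
  have hi := i.isLt
  have hj := j.isLt
  have hij' : i.val ≠ j.val := fun e => hij (Fin.ext e)
  rcases lt_or_gt_of_ne hij' with hlt | hlt
  · exact ⟨j.val - i.val, by omega, by omega, PRM_sub τ t _ _ hlt h⟩
  · exact ⟨i.val - j.val, by omega, by omega, PRM_sub τ t _ _ hlt h.symm⟩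

theorem PRM_mul (τ : Equiv.Perm (ZMod 7)) (t : ZMod 7) (d m : ℕ) (h : (τ ^ d) t = t) :
    (τ ^ (d * m)) t = t := by
  induction m with
  | zero => simp
  | succ m ih =>
    rw [Nat.mul_succ, pow_add, Equiv.Perm.mul_apply, h, ih]

theorem PRM : PRM_stmt := by
  intro τ hfix
  by_cases h3 : ∃ t, τ (τ (τ t)) = t
  · exact Or.inl h3
  by_cases h5 : ∃ t, τ (τ (τ (τ (τ t)))) = t
  · exact Or.inr (Or.inl h5)
  right
  right
  have h1' : ∀ t, (τ ^ 1) t ≠ t := by
    intro t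
    rw [pow_one]
    exact hfix t
  have h3' : ∀ t, (τ ^ 3) t ≠ t := by
    intro t ht
    exact h3 ⟨t, ht⟩
  have h5' : ∀ t, (τ ^ 5) t ≠ t := by
    intro t ht
    exact h5 ⟨t, ht⟩
  -- some point has no short period
  have hlong : ∃ t, ∀ d : ℕ, 1 ≤ d → d ≤ 6 → (τ ^ d) t ≠ t := by
    by_contra hcon
    push Not at hcon
    have h12 : ∀ t, (τ ^ 12) t = t := by
      intro t
      obtain ⟨d, hd1, hd6, hd⟩ := hcon t
      have hd' : d = 2 ∨ d = 4 ∨ d = 6 := by
        have e1 : d ≠ 1 := by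
          rintro rfl
          exact h1' t hd
        have e3 : d ≠ 3 := by
          rintro rfl
          exact h3' t hd
        have e5 : d ≠ 5 := by
          rintro rfl
          exact h5' t hd
        omega
      rcases hd' with rfl | rfl | rfl
      · exact PRM_mul τ t 2 6 hd
      · exact PRM_mul τ t 4 3 hd
      · exact PRM_mul τ t 6 2 hd
    have h4 : (τ ^ 3) ^ (2 ^ 2) = 1 := by
      rw [← pow_mul]
      ext t
      rw [show 3 * 2 ^ 2 = 12 by norm_num, h12 t, Equiv.Perm.one_apply]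
    have hp : Fact (Nat.Prime 2) := ⟨Nat.prime_two⟩
    obtain ⟨a, ha⟩ := Equiv.Perm.exists_fixed_point_of_prime (p := 2) (n := 2)
      (by rw [ZMod.card]; norm_num) h4
    exact h3' a ha
  obtain ⟨t, ht⟩ := hlong
  have hinj : Function.Injective (fun k : Fin 7 => (τ ^ (k : ℕ)) t) := by
    intro i j hij
    have hij' : (τ ^ (i : ℕ)) t = (τ ^ (j : ℕ)) t := hij
    by_contra hne
    have hne' : i.val ≠ j.val := fun e => hne (Fin.ext e)
    have hi := i.isLt
    have hj := j.isLt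
    rcases lt_or_gt_of_ne hne' with hlt | hlt
    · exact ht _ (by omega) (by omega) (PRM_sub τ t _ _ hlt hij')
    · exact ht _ (by omega) (by omega) (PRM_sub τ t _ _ hlt hij'.symm)
  have hbij := (Fintype.bijective_iff_injective_and_card _).mpr
    ⟨hinj, by rw [ZMod.card, Fintype.card_fin]⟩
  obtain ⟨k, hk⟩ := hbij.2 0
  have hk' : (τ ^ (k : ℕ)) t = 0 := hk
  have ht0 : ∀ d : ℕ, 1 ≤ d → d ≤ 6 → (τ ^ d) 0 ≠ 0 := by
    intro d hd1 hd6 hd
    apply ht d hd1 hd6
    rw [← hk', ← Equiv.Perm.mul_apply, ← pow_add, add_comm, pow_add, Equiv.Perm.mul_apply] at hd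
    exact (τ ^ (k : ℕ)).injective hd
  have hinj0 : Function.Injective (fun k : Fin 7 => (τ ^ (k : ℕ)) 0) := by
    intro i j hij
    have hij' : (τ ^ (i : ℕ)) 0 = (τ ^ (j : ℕ)) 0 := hij
    by_contra hne
    have hne' : i.val ≠ j.val := fun e => hne (Fin.ext e)
    have hi := i.isLt
    have hj := j.isLt
    rcases lt_or_gt_of_ne hne' with hlt | hlt
    · exact ht0 _ (by omega) (by omega) (PRM_sub τ 0 _ _ hlt hij')
    · exact ht0 _ (by omega) (by omega) (PRM_sub τ 0 _ _ hlt hij'.symm)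
  have hbij0 := (Fintype.bijective_iff_injective_and_card _).mpr
    ⟨hinj0, by rw [ZMod.card, Fintype.card_fin]⟩
  refine ⟨?_, fun i => hbij0.2 i⟩
  obtain ⟨d, hd1, hd7, hd⟩ := PRM_pig τ 0
  by_cases hd6 : d ≤ 6
  · exact absurd hd (ht0 d hd1 hd6)
  · have hd' : d = 7 := by omega
    rw [hd'] at hd
    exact hd

end Pool.Agent.helper91.SI
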