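import Pool.Agent.helper91.SI.Spec

set_option autoImplicit false

namespace Pool.Agent.helper91.SI

open Pool.Agent.helper20.IG (IsIndepDom IsISet iGraph)

theorem STB_far {V : Type} (G : SimpleGraph V) (n : ℕ) (f : Fin n ≃ V)
    (hf : ∀ i j : Fin n, i.val + 1 = j.val → G.Adj (f i) (f j)) (h3 : ¬ Three G)
    (i j : Fin n) (hij : i.val + 2 ≤ j.val) (hadj : G.Adj (f i) (f j)) :
    i.val = 0 ∧ j.val + 1 = n := by
  have hne : ∀ a b : Fin n, a.val ≠ b.val → f a ≠ f b := by
    intro a b hab hfab
    exact hab (congrArg Fin.val (f.injective hfab))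
  have hi := i.isLt
  have hj := j.isLt
  by_cases hi0 : i.val = 0
  · refine ⟨hi0, ?_⟩
    by_contra hjn
    apply h3
    let a : Fin n := ⟨j.val - 1, by omega⟩
    let b : Fin n := ⟨j.val + 1, by omega⟩
    have ha : a.val = j.val - 1 := rfl
    have hb : b.val = j.val + 1 := rfl
    refine ⟨f j, f a, f b, f i, ?_, ?_, hadj.symm, ?_, ?_, ?_⟩
    · exact (hf a j (by omega)).symm
    · exact hf j b (by omega)
    · exact hne _ _ (by omega)
    · exact hne _ _ (by omega)
    · exact hne _ _ (by omega)
  · exfalso
    apply h3
    let a : Fin n := ⟨i.val - 1, by omega⟩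
    let b : Fin n := ⟨i.val + 1, by omega⟩
    have ha : a.val = i.val - 1 := rfl
    have hb : b.val = i.val + 1 := rfl
    refine ⟨f i, f a, f b, f j, ?_, ?_, hadj, ?_, ?_, ?_⟩
    · exact (hf a i (by omega)).symm
    · exact hf i b (by omega)
    · exact hne _ _ (by omega)
    · exact hne _ _ (by omega)
    · exact hne _ _ (by omega)

theorem STB (hCYA : CYA_stmt) : STB_stmt := by
  intro V G n f hf h3
  have hfar := STB_far G n f hf h3
  by_cases hex : ∃ i j : Fin n, i.val + 2 ≤ j.val ∧ G.Adj (f i) (f j)
  · right
    obtain ⟨i0, j0, hij, hadj⟩ := hex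
    obtain ⟨hi0, hj0⟩ := hfar i0 j0 hij hadj
    have hn : 3 ≤ n := by omega
    refine ⟨hn, ⟨{ toEquiv := f, map_rel_iff' := ?_ }⟩⟩
    intro u v
    rw [hCYA n hn u v]
    have hu := u.isLt
    have hv := v.isLt
    constructor
    · intro h
      rcases lt_trichotomy u.val v.val with huv | huv | huv
      · by_cases h2 : u.val + 2 ≤ v.val
        · obtain ⟨h0, h1⟩ := hfar u v h2 h
          right
          rw [h1, Nat.mod_self, h0]
        · left
          rw [Nat.mod_eq_of_lt (by omega)]
          omega
      · exfalso
        have huv' : u = v := Fin.ext huv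
        subst huv'
        exact G.loopless.irrefl _ h
      · by_cases h2 : v.val + 2 ≤ u.val
        · obtain ⟨h0, h1⟩ := hfar v u h2 h.symm
          left
          rw [h1, Nat.mod_self, h0]
        · right
          rw [Nat.mod_eq_of_lt (by omega)]
          omega
    · have key : ∀ u v : Fin n, (u.val + 1) % n = v.val → G.Adj (f u) (f v) := by
        intro u v h
        have hu := u.isLt
        have hv := v.isLt
        by_cases hl : u.val + 1 < n
        · rw [Nat.mod_eq_of_lt hl] at h
          exact hf u v h
        · have hun : u.val + 1 = n := by omega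
          rw [hun, Nat.mod_self] at h
          have h1 : u = j0 := Fin.ext (by omega)
          have h2 : v = i0 := Fin.ext (by omega)
          rw [h1, h2]
          exact hadj.symm
      intro h
      rcases h with h | h
      · exact key u v h
      · exact (key v u h).symm
  · left
    refine ⟨{ toEquiv := f, map_rel_iff' := ?_ }⟩
    intro u v
    rw [SimpleGraph.pathGraph_adj]
    constructor
    · intro h
      rcases lt_trichotomy u.val v.val with huv | huv | huv
      · by_cases h2 : u.val + 2 ≤ v.val
        · exact absurd ⟨u, v, h2, h⟩ hex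
        · left
          omega
      · exfalso
        have huv' : u = v := Fin.ext huv
        subst huv'
        exact G.loopless.irrefl _ h
      · by_cases h2 : v.val + 2 ≤ u.val
        · exact absurd ⟨v, u, h2, h.symm⟩ hex
        · right
          omega
    · intro h
      rcases h with h | h
      · exact hf u v h
      · exact (hf v u h).symm

end Pool.Agent.helper91.SI
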